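import Pool.Agent.Lib.MP_688fd0_co.LIN.Iface

/-!
Modules GROWTH and GROWTH2 (L3): growth of balls.
-/

set_option autoImplicit false

namespace Pool.Agent.Lib.MP_688fd0_co.LIN.H53

open Classical
open Pool.Agent.Lib.MP_688fd0_co.LP (IsP Conn Cyc Symm cay)
open Pool.Agent.Lib.MP_688fd0_co.LIN

universe u

/-- exponentials beat polynomials -/
theorem poly (K M : ℕ) : ∃ e0 : ℕ, ∀ e ≥ e0, K * (e + 1) ^ M ≤ 2 ^ e := by
  have h := tendsto_pow_const_div_const_pow_of_one_lt M (r := (2 : ℝ)) (by norm_num)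
  have hpos : (0 : ℝ) < 1 / (2 * (K + 1)) := by positivity
  have h1 := (h.eventually (gt_mem_nhds hpos))
  rw [Filter.eventually_atTop] at h1
  obtain ⟨n0, hn0⟩ := h1
  refine ⟨n0, fun e he => ?_⟩
  have h2 := hn0 (e + 1) (by omega)
  have h3 : ((e + 1 : ℕ) : ℝ) ^ M < 1 / (2 * (K + 1)) * 2 ^ (e + 1) := by
    rwa [div_lt_iff₀ (by positivity)] at h2
  have h4 : (K : ℝ) * ((e + 1 : ℕ) : ℝ) ^ M ≤ 2 ^ e := by
    have h5 : (K : ℝ) * ((e + 1 : ℕ) : ℝ) ^ M ≤ K * (1 / (2 * (K + 1)) * 2 ^ (e + 1)) :=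
      mul_le_mul_of_nonneg_left h3.le (by positivity)
    refine h5.trans ?_
    have h6 : (K : ℝ) * (1 / (2 * (K + 1)) * 2 ^ (e + 1)) = (K / (K + 1)) * 2 ^ e := by
      rw [pow_succ]
      field_simp
    rw [h6]
    have h7 : (K : ℝ) / (K + 1) ≤ 1 := by
      rw [div_le_one (by positivity)]
      linarith
    have h8 : (0 : ℝ) ≤ 2 ^ e := by positivity
    nlinarith
  exact_mod_cast h4

theorem poly2 (K M c : ℕ) (hc : 0 < c) : ∃ e0 : ℕ, ∀ e ≥ e0, K * (e + 1) ^ M ≤ 2 ^ (e / c) := by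
  obtain ⟨m0, hm0⟩ := poly (K * c ^ M) M
  refine ⟨c * m0, fun e he => ?_⟩
  have h1 : m0 ≤ e / c := by
    rw [Nat.le_div_iff_mul_le hc, mul_comm]
    exact he
  have h2 : e + 1 ≤ c * (e / c + 1) := by
    have := Nat.lt_mul_div_succ e hc
    omega
  calc K * (e + 1) ^ M ≤ K * (c * (e / c + 1)) ^ M :=
        Nat.mul_le_mul_left _ (Nat.pow_le_pow_left h2 _)
    _ = K * c ^ M * (e / c + 1) ^ M := by rw [mul_pow, mul_assoc]
    _ ≤ 2 ^ (e / c) := hm0 _ h1

theorem pow22 (t : ℕ) : 31 ^ (22 * t) * 2 ^ t ≤ 32 ^ (22 * t) := by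
  rw [pow_mul, pow_mul, ← mul_pow]
  exact Nat.pow_le_pow_left (by norm_num) _

theorem pow22' {i t : ℕ} (h : 22 * t ≤ i) : 31 ^ i * 2 ^ t ≤ 32 ^ i := by
  obtain ⟨k, rfl⟩ := Nat.exists_eq_add_of_le h
  calc 31 ^ (22 * t + k) * 2 ^ t = (31 ^ (22 * t) * 2 ^ t) * 31 ^ k := by rw [pow_add]; ring
    _ ≤ 32 ^ (22 * t) * 32 ^ k := Nat.mul_le_mul (pow22 t) (Nat.pow_le_pow_left (by norm_num) _)
    _ = 32 ^ (22 * t + k) := by rw [pow_add]

theorem growth2 : Growth2Statement := by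
  intro B C
  obtain ⟨e0, he0⟩ := poly ((C + 1) * (2 * B) ^ 333) 2997
  refine ⟨e0, fun e he i b hb hC => ?_⟩
  rcases Nat.eq_zero_or_pos B with rfl | hB
  · simp
  set x := B * (e + 1) ^ 9 with hx
  have hx1 : x ≠ 0 := by positivity
  set t := Nat.log 2 x + 1 with ht
  have h1 : x < 2 ^ t := Nat.lt_pow_succ_log_self (by norm_num) x
  have h2 : 2 ^ t ≤ 2 * x := by
    rw [ht, pow_succ, mul_comm]
    exact Nat.mul_le_mul_left _ (Nat.pow_log_le_self 2 hx1)
  by_cases hi : 22 * t ≤ i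
  · calc x * 31 ^ i ≤ 2 ^ t * 31 ^ i := Nat.mul_le_mul_right _ h1.le
      _ = 31 ^ i * 2 ^ t := mul_comm _ _
      _ ≤ 32 ^ i := pow22' hi
      _ ≤ b := hb
  · push Not at hi
    have h3 : x * 31 ^ i ≤ (2 * x) ^ 111 := by
      calc x * 31 ^ i ≤ 2 ^ t * 31 ^ (22 * t) :=
            Nat.mul_le_mul h1.le (Nat.pow_le_pow_right (by norm_num) hi.le)
        _ ≤ 2 ^ t * 32 ^ (22 * t) := Nat.mul_le_mul_left _ (Nat.pow_le_pow_left (by norm_num) _)
        _ = (2 ^ t) ^ 111 := by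
          rw [show (32 : ℕ) = 2 ^ 5 by norm_num, ← pow_mul, ← pow_mul, ← pow_add]
          congr 1
          ring
        _ ≤ (2 * x) ^ 111 := Nat.pow_le_pow_left h2 _
    by_contra hcon
    push Not at hcon
    have h4 : b < (2 * x) ^ 111 := hcon.trans_le h3
    have h5 : C * b ^ 3 ≤ C * ((2 * x) ^ 111) ^ 3 :=
      Nat.mul_le_mul_left _ (Nat.pow_le_pow_left h4.le _)
    have h6 : C * ((2 * x) ^ 111) ^ 3 < (C + 1) * ((2 * x) ^ 111) ^ 3 := by
      have : 0 < ((2 * x) ^ 111) ^ 3 := by positivity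
      nlinarith
    have h7 : (C + 1) * ((2 * x) ^ 111) ^ 3 = (C + 1) * (2 * B) ^ 333 * (e + 1) ^ 2997 := by
      rw [hx, ← pow_mul, ← mul_assoc 2 B, mul_pow, ← pow_mul, mul_assoc]
    have h8 := he0 e he
    rw [← h7] at h8
    exact absurd (hC.trans h5) (not_le.2 (h6.trans_le h8))

theorem growth (hbase : BaseStatement.{u}) : GrowthStatement.{u} := by
  intro A B
  obtain ⟨e1, he1⟩ := poly2 (A * B + 1) 10 2 (by norm_num)
  obtain ⟨e2, he2⟩ := poly2 B 9 220 (by norm_num)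
  refine ⟨e1 + e2 + 10, fun e he V _ G hVT D hD d hd hdA hcard hlin => ?_⟩
  obtain ⟨-, -, hgr, hb0, hmono, hbD, -⟩ := hbase V G hVT
  have hgr := hgr d hd
  have hbD := hbD D hD
  have he1 := he1 e (by omega)
  have he2 := he2 e (by omega)
  -- the last radius with a small ball
  have hex : ∃ r, 2 ^ e ≤ bn G r := ⟨D, by rw [hbD]; exact hcard⟩
  set r' := Nat.find hex with hr'
  have h1 : 2 ^ e ≤ bn G r' := Nat.find_spec hex
  have h2 : r' ≠ 0 := by
    intro h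
    rw [h, hb0] at h1
    have : 1 < 2 ^ e := Nat.one_lt_two_pow (by omega)
    omega
  obtain ⟨rl, hrl⟩ := Nat.exists_eq_succ_of_ne_zero h2
  have h3 : bn G rl < 2 ^ e := by
    have := Nat.find_min hex (m := rl) (by omega)
    omega
  have h4 : rl + 1 ≤ D := by
    rw [← Nat.succ_eq_add_one, ← hrl]
    exact Nat.find_min' hex (by rw [hbD]; exact hcard)
  have h5 : 2 ^ e ≤ A * (e + 1) * bn G rl := by
    refine h1.trans ?_
    rw [hrl]
    exact (hgr rl).trans (Nat.mul_le_mul_right _ hdA)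
  set j := e / 10 with hj
  by_cases hcase : rl + 1 < 31 ^ j
  · refine ⟨rl, h3, ?_⟩
    by_contra hcon
    push Not at hcon
    have h6 : rl + 1 ≤ 2 ^ (5 * j) := by
      refine hcase.le.trans ((Nat.pow_le_pow_left (by norm_num : 31 ≤ 2 ^ 5) j).trans ?_)
      rw [← pow_mul]
    have h7 : 2 ^ e ≤ A * (e + 1) * (B * (e + 1) ^ 9 * 2 ^ (5 * j)) :=
      h5.trans (Nat.mul_le_mul_left _ (hcon.le.trans (Nat.mul_le_mul_left _ h6)))
    have h8 : A * (e + 1) * (B * (e + 1) ^ 9 * 2 ^ (5 * j)) =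
        (A * B * (e + 1) ^ 10) * 2 ^ (5 * j) := by ring
    have h9 : A * B * (e + 1) ^ 10 < 2 ^ (e / 2) := by
      refine lt_of_lt_of_le ?_ he1
      have : 0 < (e + 1) ^ 10 := by positivity
      nlinarith
    have h10 : 2 ^ (e / 2) * 2 ^ (5 * j) ≤ 2 ^ e := by
      rw [← pow_add]
      exact Nat.pow_le_pow_right (by norm_num) (by omega)
    have h11 : (A * B * (e + 1) ^ 10) * 2 ^ (5 * j) < 2 ^ (e / 2) * 2 ^ (5 * j) :=
      Nat.mul_lt_mul_of_pos_right h9 (by positivity)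
    rw [h8] at h7
    exact absurd h7 (not_le.2 (h11.trans_le h10))
  · push Not at hcase
    have hj1 : 1 ≤ j := by omega
    have h6 : ∀ i, i ≤ j → (31 ^ i - 1) / 2 ≤ rl := by
      intro i hi
      have := Nat.pow_le_pow_right (n := 31) (by norm_num) hi
      omega
    have h7 : ∀ i, i ≤ j → 32 ^ i ≤ bn G ((31 ^ i - 1) / 2) := by
      intro i
      induction i with
      | zero =>
        intro _
        simp [hb0]
      | succ i ih =>
        intro hi
        have h8 := hlin i ?_ ?_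
        · have := ih (by omega)
          rw [pow_succ]
          omega
        · have h9 := Nat.pow_le_pow_right (n := 31) (by norm_num) hi
          rw [pow_succ] at h9
          omega
        · exact (hmono _ _ (h6 i (by omega))).trans_lt h3
    refine ⟨(31 ^ j - 1) / 2, (hmono _ _ (h6 j le_rfl)).trans_lt h3, ?_⟩
    have h8 : (31 ^ j - 1) / 2 + 1 ≤ 31 ^ j := by
      have : 31 ^ 1 ≤ 31 ^ j := Nat.pow_le_pow_right (by norm_num) hj1
      omega
    calc B * (e + 1) ^ 9 * ((31 ^ j - 1) / 2 + 1) ≤ 2 ^ (e / 220) * 31 ^ j :=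
          Nat.mul_le_mul he2 h8
      _ = 31 ^ j * 2 ^ (e / 220) := mul_comm _ _
      _ ≤ 32 ^ j := pow22' (by omega)
      _ ≤ _ := h7 j le_rfl

end Pool.Agent.Lib.MP_688fd0_co.LIN.H53
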