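import Pool.Agent.Lib.MP_688fd0_co.LIN.Iface

/-!
Module SURG2 (S3): counting components in a surgery.
-/

set_option autoImplicit false

namespace Pool.Agent.Lib.MP_688fd0_co.LIN.H53

open Classical
open Pool.Agent.Lib.MP_688fd0_co.LP (IsP Conn Cyc Symm cay)
open Pool.Agent.Lib.MP_688fd0_co.LIN

universe u

section

variable {V : Type u}

/-- An inner vertex of a list has two different neighbours. -/
theorem exists_nbrs {l : List V} (hl : l.Nodup) {w : V} (hw : w ∈ l) (hne : ¬ IsEnd l w) :
    ∃ a b, a ≠ b ∧ [a, w] <:+: l ∧ [w, b] <:+: l := by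
  obtain ⟨s, t, rfl⟩ := List.mem_iff_append.1 hw
  have hs : s ≠ [] := by
    rintro rfl
    exact hne (Or.inl rfl)
  have ht : t ≠ [] := by
    rintro rfl
    exact hne (Or.inr (by simp))
  obtain ⟨s', a, rfl⟩ : ∃ s' a, s = s' ++ [a] :=
    ⟨s.dropLast, s.getLast hs, (List.dropLast_append_getLast hs).symm⟩
  obtain ⟨b, t', rfl⟩ := List.exists_cons_of_ne_nil ht
  refine ⟨a, b, ?_, ⟨s', b :: t', by simp⟩, ⟨s' ++ [a], t', by simp⟩⟩
  rintro rfl
  have h1 := (List.nodup_append.1 hl).2.2 a (by simp) a (by simp)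
  exact h1 rfl

theorem chain_part {R : V → V → Prop} {s L : List V} (hc : L.IsChain R) (h : s <:+: L) :
    s.IsChain R := by
  obtain ⟨p, q, rfl⟩ := h
  exact hc.left_of_append.right_of_append

theorem ne_of_sub2 {l : List V} (hl : l.Nodup) {a b : V} (h : [a, b] <:+: l) : a ≠ b := by
  have h1 := hl.sublist h.sublist
  simpa using h1

theorem adj_of_sub2 {G : SimpleGraph V} {l : List V} (hl : l.IsChain G.Adj) {a b : V}
    (h : [a, b] <:+: l) : G.Adj a b := by
  have h1 := chain_part hl h
  simpa using h1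

theorem reach_of_chain {G : SimpleGraph V} : ∀ (t : List V) (a : V), (a :: t).IsChain G.Adj →
    ∀ w ∈ a :: t, G.Reachable a w := by
  intro t
  induction t with
  | nil =>
    intro a _ w hw
    rw [List.mem_singleton] at hw
    rw [hw]
  | cons b t ih =>
    intro a h w hw
    rw [List.isChain_cons_cons] at h
    rcases List.mem_cons.1 hw with rfl | hw
    · exact SimpleGraph.Reachable.refl _
    · exact h.1.reachable.trans (ih b h.2 w hw)

theorem chain_newG (H : SimpleGraph V) (arcs cons : Finset (List V)) {l : List V} (hl : l ∈ cons)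
    (hnd : l.Nodup) : l.IsChain (newG H arcs cons).Adj := by
  rw [List.isChain_iff_forall_rel_of_append_cons_cons]
  intro a b l₁ l₂ h
  have h1 : [a, b] <:+: l := ⟨l₁, l₂, by rw [h]; simp⟩
  exact Or.inr ⟨ne_of_sub2 hnd h1, l, hl, Or.inl h1⟩

variable [Fintype V]

theorem mem_cyc {H : SimpleGraph V} {v w : V} : w ∈ cyc H v ↔ H.Reachable v w := by
  simp [cyc]

theorem mem_cov {H : SimpleGraph V} {v : V} : v ∈ cov H ↔ ∃ w, H.Adj v w := by
  simp [cov]

theorem mem_endsOf {arcs : Finset (List V)} {v : V} :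
    v ∈ endsOf arcs ↔ ∃ l ∈ arcs, IsEnd l v := by
  simp [endsOf]

theorem cyc_eq_of_reachable {H : SimpleGraph V} {v w : V} (h : H.Reachable v w) :
    cyc H v = cyc H w := by
  ext x
  rw [mem_cyc, mem_cyc]
  exact ⟨fun h' => h.symm.trans h', fun h' => h.trans h'⟩

/-- The two neighbours of a vertex of degree two. -/
theorem nbrs_of_deg {H : SimpleGraph V} {w a b : V} (hd : dg H w = 2) (hab : a ≠ b)
    (ha : H.Adj w a) (hb : H.Adj w b) {x : V} (hx : H.Adj w x) : x = a ∨ x = b := by
  have h1 : ({a, b} : Finset V) ⊆ Finset.univ.filter (fun x => H.Adj w x) := by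
    intro y hy
    simp only [Finset.mem_insert, Finset.mem_singleton] at hy
    rcases hy with rfl | rfl
    · simpa using ha
    · simpa using hb
  have h2 : ({a, b} : Finset V) = Finset.univ.filter (fun x => H.Adj w x) := by
    refine Finset.eq_of_subset_of_card_le h1 ?_
    rw [Finset.card_pair hab]
    exact hd.le
  have h3 : x ∈ ({a, b} : Finset V) := by
    rw [h2]
    simpa using hx
  simpa using h3

theorem deg_of_mem_cov {G H : SimpleGraph V} (hcf : CF G H) {w : V} (hw : ∃ x, H.Adj w x) :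
    dg H w = 2 := by
  refine (hcf.deg w).resolve_left fun h => ?_
  obtain ⟨x, hx⟩ := hw
  have h1 : (Finset.univ.filter (fun y => H.Adj w y)) = ∅ := Finset.card_eq_zero.1 h
  have h2 : x ∈ (Finset.univ.filter (fun y => H.Adj w y)) := by simpa using hx
  rw [h1] at h2
  simp at h2

theorem ends_cov {H : SimpleGraph V} {arcs : Finset (List V)} (harc : ∀ l ∈ arcs, IsArc H l)
    {v : V} (hv : v ∈ endsOf arcs) : v ∈ cov H := by
  rw [mem_endsOf] at hv
  obtain ⟨l, hl, hv⟩ := hv
  obtain ⟨hch, hnd, hlen⟩ := harc l hl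
  rw [mem_cov]
  rcases hv with hv | hv
  · match l, hlen, hv, hch with
    | a :: b :: t, _, hv, hch =>
      simp only [List.head?_cons, Option.some.injEq] at hv
      subst hv
      rw [List.isChain_cons_cons] at hch
      exact ⟨b, hch.1⟩
  · have hne : l ≠ [] := by
      rintro rfl
      simp at hlen
    rw [List.getLast?_eq_some_getLast hne, Option.some.injEq] at hv
    obtain ⟨s, hs⟩ : ∃ s, l = s ++ [v] :=
      ⟨l.dropLast, by rw [← hv]; exact (List.dropLast_append_getLast hne).symm⟩
    have hs' : s ≠ [] := by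
      rintro rfl
      rw [hs] at hlen
      simp at hlen
    obtain ⟨s', a, rfl⟩ : ∃ s' a, s = s' ++ [a] :=
      ⟨s.dropLast, s.getLast hs', (List.dropLast_append_getLast hs').symm⟩
    exact ⟨a, (adj_of_sub2 hch ⟨s', [], by rw [hs]; simp⟩ : H.Adj a v).symm⟩

/-- In a component without ends of arcs the two graphs agree. -/
theorem adj_iff {G H : SimpleGraph V} {arcs cons : Finset (List V)} (hS : Surg G H arcs cons)
    {v : V} (hv : v ∈ cov (newG H arcs cons))
    (hno : ∀ w, (newG H arcs cons).Reachable v w → w ∉ endsOf arcs) {w : V}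
    (hw : (newG H arcs cons).Reachable v w) (x : V) :
    (newG H arcs cons).Adj w x ↔ H.Adj w x := by
  -- `w` is not on a connection
  have h1 : ∀ l ∈ cons, w ∉ l := by
    intro l hl hwl
    obtain ⟨hP, -, -⟩ := hS.con l hl
    obtain ⟨hne, -, hnd⟩ := hP
    obtain ⟨a, t, rfl⟩ := List.exists_cons_of_ne_nil hne
    have h2 := reach_of_chain t a (chain_newG H arcs cons hl hnd) w hwl
    refine hno a (hw.trans h2.symm) ?_
    rw [mem_endsOf, hS.ends]
    exact ⟨a :: t, hl, Or.inl rfl⟩
  -- `w` has a neighbour in the new graph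
  have h2 : ∃ y, (newG H arcs cons).Adj w y := by
    obtain ⟨p⟩ := hw.symm
    cases p with
    | nil => exact mem_cov.1 hv
    | cons h _ => exact ⟨_, h⟩
  have h3 : ∀ y, (newG H arcs cons).Adj w y → H.Adj w y ∧ ∀ l ∈ arcs, ¬ pe l w y := by
    rintro y (h | ⟨-, l, hl, h⟩)
    · exact h
    · exfalso
      refine h1 l hl ?_
      rcases h with h | h
      · exact h.subset (by simp)
      · exact h.subset (by simp)
  -- `w` is not on an arc
  have h4 : ∀ l ∈ arcs, w ∉ l := by
    intro l hl hwl
    obtain ⟨hch, hnd, -⟩ := hS.arc l hl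
    have hne : ¬ IsEnd l w := fun h => hno w hw (mem_endsOf.2 ⟨l, hl, h⟩)
    obtain ⟨a, b, hab, ha, hb⟩ := exists_nbrs hnd hwl hne
    obtain ⟨y, hy⟩ := h2
    obtain ⟨hy1, hy2⟩ := h3 y hy
    have hd := deg_of_mem_cov hS.cf ⟨y, hy1⟩
    rcases nbrs_of_deg hd hab (adj_of_sub2 hch ha).symm (adj_of_sub2 hch hb) hy1 with rfl | rfl
    · exact hy2 l hl (Or.inr ha)
    · exact hy2 l hl (Or.inl hb)
  constructor
  · intro h
    exact (h3 x h).1
  · intro h
    refine Or.inl ⟨h, fun l hl hp => h4 l hl ?_⟩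
    rcases hp with hp | hp
    · exact hp.subset (by simp)
    · exact hp.subset (by simp)

theorem cyc_newG_eq {G H : SimpleGraph V} {arcs cons : Finset (List V)} (hS : Surg G H arcs cons)
    {v : V} (hv : v ∈ cov (newG H arcs cons))
    (hno : ∀ w, (newG H arcs cons).Reachable v w → w ∉ endsOf arcs) :
    v ∈ cov H ∧ cyc (newG H arcs cons) v = cyc H v := by
  have hadj := fun {w : V} (hw : (newG H arcs cons).Reachable v w) => adj_iff hS hv hno hw
  refine ⟨?_, ?_⟩
  · obtain ⟨w, hw⟩ := mem_cov.1 hv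
    exact mem_cov.2 ⟨w, (hadj (SimpleGraph.Reachable.refl _) w).1 hw⟩
  · ext w
    rw [mem_cyc, mem_cyc]
    constructor
    · intro h
      rw [SimpleGraph.reachable_iff_reflTransGen] at h
      have h1 : H.Reachable v w ∧ (newG H arcs cons).Reachable v w := by
        induction h with
        | refl => exact ⟨SimpleGraph.Reachable.refl _, SimpleGraph.Reachable.refl _⟩
        | tail _ hab ih =>
          exact ⟨ih.1.trans ((hadj ih.2 _).1 hab).reachable, ih.2.trans hab.reachable⟩
      exact h1.1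
    · intro h
      rw [SimpleGraph.reachable_iff_reflTransGen] at h
      induction h with
      | refl => exact SimpleGraph.Reachable.refl _
      | tail _ hab ih => exact ih.trans ((hadj ih _).2 hab).reachable

end

theorem surg2 : Surg2Statement.{u} := by
  intro V _ G H arcs cons hS
  set H' := newG H arcs cons with hH'
  -- the components of `H'` with and without ends
  have h1 : cycs H' ⊆ (endsOf arcs).image (cyc H') ∪ (cycs H \ (endsOf arcs).image (cyc H)) := by
    intro S hSm
    obtain ⟨v, hv, rfl⟩ := Finset.mem_image.1 hSm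
    by_cases hno : ∀ w, H'.Reachable v w → w ∉ endsOf arcs
    · refine Finset.mem_union_right _ (Finset.mem_sdiff.2 ?_)
      obtain ⟨hc, he⟩ := cyc_newG_eq hS hv hno
      rw [he]
      refine ⟨Finset.mem_image.2 ⟨v, hc, rfl⟩, fun hmem => ?_⟩
      obtain ⟨e, he1, he2⟩ := Finset.mem_image.1 hmem
      have h3 : e ∈ cyc H v := by
        rw [← he2, mem_cyc]
      rw [← he, mem_cyc] at h3
      exact hno e h3 he1
    · push Not at hno
      obtain ⟨w, hw, hwe⟩ := hno
      refine Finset.mem_union_left _ (Finset.mem_image.2 ⟨w, hwe, ?_⟩)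
      exact (cyc_eq_of_reachable hw).symm
  have h2 : (endsOf arcs).image (cyc H) ⊆ cycs H := by
    intro S hSm
    obtain ⟨v, hv, rfl⟩ := Finset.mem_image.1 hSm
    exact Finset.mem_image.2 ⟨v, ends_cov hS.arc hv, rfl⟩
  have h3 := (Finset.card_le_card h1).trans (Finset.card_union_le _ _)
  rw [Finset.card_sdiff_of_subset h2] at h3
  have h4 := Finset.card_le_card h2
  unfold ncyc
  omega

end Pool.Agent.Lib.MP_688fd0_co.LIN.H53
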